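import Pool.Agent.Helper21.W4.St5

/-!
# Module Waf of project W4 (Wilf in embedding dimension four): the weighted sum
-/

set_option autoImplicit false

namespace Pool.Agent.Helper17.W4

open Pool.Agent.Helper21.W4 Finset

theorem hWaf : StWaf := by
  intro hAr hVol hWoo hWrho B h1 h2 h3 κ Λ hPP hK hm hinj hnm htgt
  have pp0 : PP0 B h1 h2 h3 := ⟨hPP.e12, hPP.e13, hPP.bd⟩
  obtain ⟨w1, w2⟩ := hWoo hAr hVol B h1 h2 h3 pp0
  have ho : ∀ x ∈ pts B h1, oo h1 h2 h3 x ≤ κ := by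
    intro x hx
    have hx' : x.1 < h1 x.2.1 x.2.2 := by
      simp only [pts, mem_filter] at hx
      exact hx.2
    have := hK.1 x.1 x.2.1 x.2.2 hx'
    unfold oo
    split_ifs <;> omega
  have wr := hWrho (ℕ × ℕ × ℕ) (pts B h1) (oo h1 h2 h3) (fun x => Λ x % vol B h3) κ hinj ho
  rw [w1] at wr
  have key : (∑ x ∈ pts B h1, oo h1 h2 h3 x * (Λ x % vol B h3)) +
      vol B h3 * (NMs B h1 + NMs B h2 + NMs B h3) ≤ ∑ x ∈ pts B h1, Λ x * oo h1 h2 h3 x := by
    rw [← w2, Finset.sum_filter, Finset.mul_sum, ← Finset.sum_add_distrib]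
    apply Finset.sum_le_sum
    intro x hx
    have hd := Nat.mod_add_div (Λ x) (vol B h3)
    by_cases hn : nonmax h1 h2 h3 x
    · rw [if_pos hn]
      have h1' := hnm x hx hn
      have h2' : 1 ≤ Λ x / vol B h3 := (Nat.one_le_div_iff (by omega)).mpr h1'
      calc oo h1 h2 h3 x * (Λ x % vol B h3) + vol B h3 * oo h1 h2 h3 x
          ≤ oo h1 h2 h3 x * (Λ x % vol B h3) + vol B h3 * oo h1 h2 h3 x * (Λ x / vol B h3) := by
            exact Nat.add_le_add_left (Nat.le_mul_of_pos_right (vol B h3 * oo h1 h2 h3 x) h2') _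
        _ = (Λ x % vol B h3 + vol B h3 * (Λ x / vol B h3)) * oo h1 h2 h3 x := by ring
        _ = Λ x * oo h1 h2 h3 x := by rw [hd]
    · rw [if_neg hn, mul_zero, add_zero, mul_comm]
      exact Nat.mul_le_mul_right _ (Nat.mod_le _ _)
  refine le_trans ?_ key
  obtain ⟨p, q, r, -, hk⟩ := hK.2
  have hκ : 3 ≤ κ := by omega
  unfold Tgt at htgt
  obtain ⟨k, hk'⟩ : ∃ k, vol B h3 = k + 1 := ⟨vol B h3 - 1, by omega⟩
  generalize hT : (∑ x ∈ pts B h1, oo h1 h2 h3 x * (Λ x % vol B h3)) = T at wr ⊢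
  rw [hk'] at htgt wr ⊢
  generalize NMs B h1 = N1 at *
  generalize NMs B h2 = N2 at *
  generalize NMs B h3 = N3 at *
  rw [Nat.add_sub_cancel]
  have wr' : ((3 * ((k : ℤ) + 1)) * (3 * ((k : ℤ) + 1))) ≤ κ * (2 * T + 3 * ((k : ℤ) + 1)) := by
    exact_mod_cast wr
  have ht' : (κ : ℤ) * (2 * (((k : ℤ) + 1) - N1 - N2 - N3) + 1) ≤ 9 * ((k : ℤ) + 1) := by
    have := htgt
    push_cast at this
    linarith
  have hk0 : (0 : ℤ) ≤ (k : ℤ) + 1 := by positivity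
  have h3' := mul_le_mul_of_nonneg_left ht' hk0
  have hfin : (κ : ℤ) * (((k : ℤ) + 1) * k) ≤ (κ : ℤ) * (T + ((k : ℤ) + 1) * (N1 + N2 + N3)) := by
    nlinarith
  have hκ0 : (0 : ℤ) < κ := by omega
  have := le_of_mul_le_mul_left hfin hκ0
  exact_mod_cast this

end Pool.Agent.Helper17.W4
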